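import Mathlib
import Pool.Agent.NRG.G11Red
import Pool.Agent.NRG.G12Vars

/-!
# Mahler measures of polynomials with a coprime partner

For coprime nonzero integer polynomials `P, Q` let `pairMeasure P Q` be the Mahler measure of the Laurent
polynomial `P(z) P(1/z) + Q(z) Q(1/z)`. For every `T` the measures of the products of polynomials `P` having
a coprime partner `Q` with `pairMeasure P Q ≤ T` form a closed set, a semigroup in which `1` is isolated,
and its bounded elements are measures of polynomials in a bounded number of variables.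
These closed sets exhaust all Mahler measures and contain the bounded measures of all polynomials whose
irreducible factors are constant, nonreciprocal, or sparse in some direction. The set of all measures is
closed if and only if it contains the limits of the measures of products of the remaining (wild)
irreducible polynomials.
-/

open MeasureTheory Filter Topology Pool.Agent.H27Mahler Pool.Agent.NRG

namespace Pool.Agent.Results.MP_6d22ea_nt.CoprimePartner

/-- Mahler measure of an integer polynomial in `k` variables. -/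
noncomputable def measureOf {k : ℕ} (F : MvPolynomial (Fin k) ℤ) : ℝ :=
  Real.exp (∫ t in Set.Icc (0 : Fin k → ℝ) 1,
    Real.log ‖MvPolynomial.eval
      (fun j : Fin k => Complex.exp (2 * (Real.pi : ℂ) * Complex.I * ((t j : ℝ) : ℂ)))
      (MvPolynomial.map (Int.castRingHom ℂ) F)‖)

/-- Mahler measure of the Laurent polynomial `P(z) P(1/z) + Q(z) Q(1/z)`, which equals
`|P(z)|² + |Q(z)|²` on the torus. -/
noncomputable def pairMeasure {k : ℕ} (P Q : MvPolynomial (Fin k) ℤ) : ℝ :=
  Real.exp (∫ t in Set.Icc (0 : Fin k → ℝ) 1,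
    Real.log (‖MvPolynomial.eval
      (fun j : Fin k => Complex.exp (2 * (Real.pi : ℂ) * Complex.I * ((t j : ℝ) : ℂ)))
      (MvPolynomial.map (Int.castRingHom ℂ) P)‖ ^ 2 + ‖MvPolynomial.eval
      (fun j : Fin k => Complex.exp (2 * (Real.pi : ℂ) * Complex.I * ((t j : ℝ) : ℂ)))
      (MvPolynomial.map (Int.castRingHom ℂ) Q)‖ ^ 2))

/-- `P` has a nonzero coprime partner `Q` with `pairMeasure P Q ≤ T`. -/
def HasPartner {k : ℕ} (T : ℝ) (P : MvPolynomial (Fin k) ℤ) : Prop :=
  ∃ Q : MvPolynomial (Fin k) ℤ, Q ≠ 0 ∧ IsRelPrime P Q ∧ pairMeasure P Q ≤ T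

/-- `P` is reciprocal: `P(z) = u z^e P(1/z)` for some exponent `e` and some sign `u`. -/
def IsReciprocal {k : ℕ} (P : MvPolynomial (Fin k) ℤ) : Prop :=
  ∃ (e : Fin k →₀ ℕ) (u : ℤ), (u = 1 ∨ u = -1) ∧ (∀ s ∈ P.support, s ≤ e) ∧
    ∀ s s' : Fin k →₀ ℕ, s + s' = e → P.coeff s = u * P.coeff s'

/-- The values of the integer linear functional `lam` on the exponents of `P`. -/
noncomputable def valuesOf {k : ℕ} (lam : Fin k → ℤ) (P : MvPolynomial (Fin k) ℤ) : Finset ℤ :=
  P.support.image fun s => ∑ i, lam i * (s i : ℤ)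

/-- `P` is tame: constant, or not reciprocal, or some integer linear functional takes between `2` and `m`
values on its exponents, or it has a coprime partner with `pairMeasure P Q ≤ T`. -/
def IsTame {k : ℕ} (m : ℕ) (T : ℝ) (P : MvPolynomial (Fin k) ℤ) : Prop :=
  P.totalDegree = 0 ∨ ¬ IsReciprocal P ∨
    (∃ lam : Fin k → ℤ, 2 ≤ (valuesOf lam P).card ∧ (valuesOf lam P).card ≤ m) ∨ HasPartner T P

/-- The set of all Mahler measures. -/
def allValues : Set ℝ :=
  {x | ∃ k : ℕ, 1 ≤ k ∧ ∃ F : MvPolynomial (Fin k) ℤ, F ≠ 0 ∧ x = measureOf F}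

/-- The measures of the products of polynomials with a coprime partner of pair measure at most `T`. -/
def partnerValues (T : ℝ) : Set ℝ :=
  {x | ∃ k : ℕ, 1 ≤ k ∧ ∃ s : Multiset (MvPolynomial (Fin k) ℤ),
    (∀ P ∈ s, P ≠ 0 ∧ HasPartner T P) ∧ x = measureOf s.prod}

/-- The measures of the products of irreducible polynomials which are not tame. -/
def wildValues (m : ℕ) (T : ℝ) : Set ℝ :=
  {x | ∃ k : ℕ, 1 ≤ k ∧ ∃ s : Multiset (MvPolynomial (Fin k) ℤ),
    (∀ P ∈ s, Irreducible P ∧ ¬ IsTame m T P) ∧ x = measureOf s.prod}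

theorem measureOf_eq {k : ℕ} (F : MvPolynomial (Fin k) ℤ) : measureOf F = Real.exp (mm F) := by
  rw [measureOf]
  congr 1
  exact integral_cube_eq_mm F

theorem pairMeasure_eq {k : ℕ} (P Q : MvPolynomial (Fin k) ℤ) :
    pairMeasure P Q = Real.exp (LL P Q) := by
  rw [pairMeasure]
  congr 1
  exact integral_cube_eq_LL P Q

/-- the logarithm of `T`, with a negative value for `T ≤ 0` -/
noncomputable def cT (T : ℝ) : ℝ := if 0 < T then Real.log T else -1

theorem part_iff {k : ℕ} {T : ℝ} {P : MvPolynomial (Fin k) ℤ} :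
    Part (cT T) P ↔ P ≠ 0 ∧ HasPartner T P := by
  by_cases hT : 0 < T
  · rw [cT, if_pos hT]
    constructor
    · rintro ⟨h0, Q, hQ, h1, h2⟩
      refine ⟨h0, Q, hQ, h1, ?_⟩
      rw [pairMeasure_eq, ← Real.exp_log hT]
      exact Real.exp_le_exp.mpr h2
    · rintro ⟨h0, Q, hQ, h1, h2⟩
      refine ⟨h0, Q, hQ, h1, ?_⟩
      rw [pairMeasure_eq, ← Real.exp_log hT] at h2
      exact Real.exp_le_exp.mp h2
  · rw [cT, if_neg hT]
    constructor
    · rintro ⟨h0, Q, hQ, h1, h2⟩
      have := LL_nonneg h0 Q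
      linarith
    · rintro ⟨h0, Q, hQ, h1, h2⟩
      rw [pairMeasure_eq] at h2
      exact absurd (lt_of_lt_of_le (Real.exp_pos _) h2) hT

theorem valuesOf_eq {k : ℕ} (lam : Fin k → ℤ) (P : MvPolynomial (Fin k) ℤ) :
    valuesOf lam P = wts lam P := by
  rw [valuesOf, wts]
  congr 1
  funext s
  rw [Finsupp.weight_apply, Finsupp.sum_fintype _ _ (by simp)]
  refine Finset.sum_congr rfl fun i _ => ?_
  rw [nsmul_eq_mul, mul_comm]

theorem tame_iff {k : ℕ} {m : ℕ} {T : ℝ} {P : MvPolynomial (Fin k) ℤ} (hP : P ≠ 0) :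
    IsTame m T P ↔ TameC m (cT T) P := by
  rw [IsTame, TameC, Tame, part_iff]
  simp only [valuesOf_eq]
  constructor
  · rintro (h | h | h | h)
    · exact Or.inl (Or.inl h)
    · exact Or.inl (Or.inr (Or.inl h))
    · exact Or.inl (Or.inr (Or.inr h))
    · exact Or.inr ⟨hP, h⟩
  · rintro ((h | h | h) | h)
    · exact Or.inl h
    · exact Or.inr (Or.inl h)
    · exact Or.inr (Or.inr (Or.inl h))
    · exact Or.inr (Or.inr (Or.inr h.2))

theorem rename_ne_zero {k : ℕ} {F : MvPolynomial (Fin k) ℤ} (hF : F ≠ 0) :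
    MvPolynomial.rename Fin.castSucc F ≠ 0 := by
  rw [Ne, ← map_zero (MvPolynomial.rename (Fin.castSucc : Fin k → Fin (k + 1))),
    (MvPolynomial.rename_injective _ (Fin.castSucc_injective k)).eq_iff]
  exact hF

theorem mem_partner_iff {T x : ℝ} : x ∈ partnerValues T ↔ 0 < x ∧ Real.log x ∈ PP (cT T) := by
  constructor
  · rintro ⟨k, -, s, hs, rfl⟩
    refine ⟨by rw [measureOf_eq]; exact Real.exp_pos _, k, s, fun P hP => part_iff.mpr (hs P hP), ?_⟩
    rw [measureOf_eq, Real.log_exp]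
  · rintro ⟨hx, k, s, hs, hm⟩
    refine ⟨k + 1, by omega, s.map (MvPolynomial.rename Fin.castSucc), ?_, ?_⟩
    · intro P hP
      obtain ⟨P', hP', rfl⟩ := Multiset.mem_map.mp hP
      exact part_iff.mp ((hs P' hP').rename (Fin.castSucc_injective k))
    · rw [measureOf_eq, ← map_multiset_prod, mm_rename _ (Fin.castSucc_injective k), hm,
        Real.exp_log hx]

theorem mem_all_iff {x : ℝ} : x ∈ allValues ↔ 0 < x ∧ Real.log x ∈ LLog := by
  constructor
  · rintro ⟨k, -, F, hF, rfl⟩
    refine ⟨by rw [measureOf_eq]; exact Real.exp_pos _, k, F, hF, ?_⟩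
    rw [measureOf_eq, Real.log_exp]
  · rintro ⟨hx, k, F, hF, hm⟩
    refine ⟨k + 1, by omega, MvPolynomial.rename Fin.castSucc F, rename_ne_zero hF, ?_⟩
    rw [measureOf_eq, mm_rename _ (Fin.castSucc_injective k), hm, Real.exp_log hx]

theorem mem_wild_iff {m : ℕ} {T x : ℝ} :
    x ∈ wildValues m T ↔ 0 < x ∧ Real.log x ∈ WLog m (cT T) := by
  constructor
  · rintro ⟨k, -, s, hs, rfl⟩
    refine ⟨by rw [measureOf_eq]; exact Real.exp_pos _, k, s, fun P hP => ⟨(hs P hP).1, ?_⟩, ?_⟩
    · rw [← tame_iff (hs P hP).1.ne_zero]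
      exact (hs P hP).2
    · rw [measureOf_eq, Real.log_exp]
  · rintro ⟨hx, k, s, hs, hm⟩
    rcases Nat.eq_zero_or_pos k with rfl | hk
    · -- there are no wild polynomials without variables
      have hs0 : s = 0 := by
        refine Multiset.eq_zero_of_forall_notMem fun P hP => ?_
        apply (hs P hP).2
        refine Or.inl (Or.inl ?_)
        rw [MvPolynomial.eq_C_of_isEmpty P, MvPolynomial.totalDegree_C]
      refine ⟨1, le_rfl, 0, by simp, ?_⟩
      rw [hs0, Multiset.prod_zero] at hm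
      have h1 : ∀ j : ℕ, mm (1 : MvPolynomial (Fin j) ℤ) = 0 := fun j => mm_unit isUnit_one
      rw [Multiset.prod_zero, measureOf_eq, h1, ← h1 0, hm, Real.exp_log hx]
    · refine ⟨k, hk, s, fun P hP => ⟨(hs P hP).1, ?_⟩, ?_⟩
      · rw [tame_iff (hs P hP).1.ne_zero]
        exact (hs P hP).2
      · rw [measureOf_eq, hm, Real.exp_log hx]

/-- closed sets of logarithms give closed sets -/
theorem isClosed_of_log {V : Set ℝ} (hV : IsClosed V) (h0 : ∀ v ∈ V, 0 ≤ v) :
    IsClosed {x : ℝ | 0 < x ∧ Real.log x ∈ V} := by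
  have hS : {x : ℝ | 0 < x ∧ Real.log x ∈ V} = Set.Ici 1 ∩ Real.log ⁻¹' V := by
    ext x
    constructor
    · rintro ⟨hx, hv⟩
      refine ⟨?_, hv⟩
      by_contra hcon
      have h1 : x < 1 := not_le.mp hcon
      have h2 := Real.log_neg hx h1
      have h3 := h0 _ hv
      linarith
    · rintro ⟨hx, hv⟩
      exact ⟨lt_of_lt_of_le one_pos hx, hv⟩
  rw [hS]
  exact (Real.continuousOn_log.mono fun x (hx : (1 : ℝ) ≤ x) => by
    simp only [Set.mem_compl_iff, Set.mem_singleton_iff]
    intro h0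
    rw [h0] at hx
    linarith).preimage_isClosed_of_isClosed isClosed_Ici hV

theorem isClosed_partner (T : ℝ) : IsClosed (partnerValues T) := by
  have h : partnerValues T = {x : ℝ | 0 < x ∧ Real.log x ∈ PP (cT T)} := by
    ext x
    exact mem_partner_iff
  rw [h]
  exact isClosed_of_log (isClosed_PP _) fun v hv => PP_nonneg hv

theorem isClosed_all_iff (m : ℕ) (T : ℝ) :
    IsClosed allValues ↔ closure (wildValues m T) ⊆ allValues := by
  constructor
  · intro h
    refine closure_minimal (fun x hx => ?_) h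
    rw [mem_wild_iff] at hx
    rw [mem_all_iff]
    exact ⟨hx.1, WLog_subset_LLog _ _ hx.2⟩
  · intro h
    have h1 : closure (WLog m (cT T)) ⊆ LLog := by
      intro y hy
      have h2 : Real.exp y ∈ closure (Real.exp '' WLog m (cT T)) :=
        image_closure_subset_closure_image Real.continuous_exp ⟨y, hy, rfl⟩
      have h3 : Real.exp '' WLog m (cT T) ⊆ wildValues m T := by
        rintro x ⟨v, hv, rfl⟩
        rw [mem_wild_iff]
        exact ⟨Real.exp_pos _, by rw [Real.log_exp]; exact hv⟩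
      have h4 := h (closure_mono h3 h2)
      rw [mem_all_iff, Real.log_exp] at h4
      exact h4.2
    have h2 : allValues = {x : ℝ | 0 < x ∧ Real.log x ∈ LLog} := by
      ext x
      exact mem_all_iff
    rw [h2]
    exact isClosed_of_log (isClosed_LLog_of_wild h1) fun v hv => LLog_nonneg hv

theorem result :
    (∀ T : ℝ, IsClosed (partnerValues T) ∧
      (∀ x ∈ partnerValues T, ∀ y ∈ partnerValues T, x * y ∈ partnerValues T) ∧
      (∃ c : ℝ, 1 < c ∧ ∀ x ∈ partnerValues T, x = 1 ∨ c ≤ x) ∧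
      ∀ X : ℝ, ∃ K : ℕ, ∀ x ∈ partnerValues T, x ≤ X →
        ∃ G : MvPolynomial (Fin K) ℤ, G ≠ 0 ∧ x = measureOf G) ∧
    (⋃ T : ℝ, partnerValues T) = allValues ∧
    (∀ (m : ℕ) (T X : ℝ), ∃ T' : ℝ, ∀ (k : ℕ) (F : MvPolynomial (Fin k) ℤ), F ≠ 0 →
      measureOf F ≤ X →
      (∀ P : MvPolynomial (Fin k) ℤ, Irreducible P → P ∣ F → measureOf P ≠ 1 → IsTame m T P) →
      measureOf F ∈ partnerValues T') ∧
    ∀ (m : ℕ) (T : ℝ), IsClosed allValues ↔ closure (wildValues m T) ⊆ allValues := by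
  have hexp : ∀ c : ℝ, cT (Real.exp c) = c := by
    intro c
    rw [cT, if_pos (Real.exp_pos _), Real.log_exp]
  refine ⟨fun T => ⟨isClosed_partner T, ?_, ?_, ?_⟩, ?_, ?_, isClosed_all_iff⟩
  · intro x hx y hy
    rw [mem_partner_iff] at hx hy ⊢
    refine ⟨mul_pos hx.1 hy.1, ?_⟩
    rw [Real.log_mul hx.1.ne' hy.1.ne']
    exact add_mem_PP hx.2 hy.2
  · obtain ⟨ε, hε, hgap⟩ := gap_PP (cT T)
    refine ⟨Real.exp ε, Real.one_lt_exp_iff.mpr hε, fun x hx => ?_⟩
    rw [mem_partner_iff] at hx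
    rcases hgap _ hx.2 with h | h
    · left
      rw [← Real.exp_log hx.1, h, Real.exp_zero]
    · right
      rw [← Real.exp_log hx.1]
      exact Real.exp_le_exp.mpr h
  · intro X
    obtain ⟨K, hK⟩ := vars_PP (cT T) (Real.log X)
    refine ⟨K, fun x hx hxX => ?_⟩
    rw [mem_partner_iff] at hx
    obtain ⟨G, hG, hGx⟩ := hK _ hx.2 (Real.log_le_log hx.1 hxX)
    exact ⟨G, hG, by rw [measureOf_eq, hGx, Real.exp_log hx.1]⟩
  · ext x
    rw [Set.mem_iUnion]
    constructor
    · rintro ⟨T, hT⟩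
      rw [mem_partner_iff] at hT
      rw [mem_all_iff]
      exact ⟨hT.1, PP_subset_LLog _ hT.2⟩
    · rintro ⟨k, hk, F, hF, rfl⟩
      refine ⟨pairMeasure F 1, k, hk, {F}, ?_, by rw [Multiset.prod_singleton]⟩
      intro P hP
      rw [Multiset.mem_singleton] at hP
      subst hP
      exact ⟨hF, 1, one_ne_zero, isRelPrime_one_right, le_rfl⟩
  · intro m T X
    refine ⟨Real.exp (cX m (cT T) |Real.log X|), fun k F hF hX hT => ?_⟩
    rw [mem_partner_iff, measureOf_eq, Real.log_exp, hexp]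
    refine ⟨Real.exp_pos _, ?_⟩
    have hX' : mm F ≤ |Real.log X| := by
      rw [measureOf_eq] at hX
      have h1 : mm F ≤ Real.log X := by
        rw [← Real.log_exp (mm F)]
        exact Real.log_le_log (Real.exp_pos _) hX
      exact h1.trans (le_abs_self _)
    obtain ⟨s, hs, hsum⟩ := sum_of_tame (c := cX m (cT T) |Real.log X|) F hF hX'
      (fun P hP hPF h1 hPX => part_tameC hP hPX ((tame_iff hP.ne_zero).mp (hT P hP hPF (by
        rw [measureOf_eq]
        intro h
        exact h1 (Real.exp_eq_one_iff _ |>.mp h)))))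
    exact ⟨k, s, hs, by rw [(mm_prod s fun P hP => (hs P hP).1).2, hsum]⟩

end Pool.Agent.Results.MP_6d22ea_nt.CoprimePartner
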