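import Mathlib
import Pool.Agent.GAP.A09Set

/-!
# Mahler measures of polynomials with long gaps

A polynomial is `m`-gapped if in some direction, of width `n ≥ 1` on its exponents, any two values
differ by at most `√n / log n - 1` or by at least `n / m`: the values lie in few short windows which
are far apart, and nothing is assumed about the coefficients, the number of monomials, of values or
of variables. For every `m` the limits of the measures of all polynomials whose relevant irreducible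
factors are nonreciprocal, or sparse in some direction, or `m`-gapped are Mahler measures, `1` is
isolated, and bounded values need boundedly many variables. The set of all measures is closed if and
only if it contains the limits of the measures of products of the other irreducible polynomials.
-/

open MeasureTheory Filter Topology Pool.Agent.H27Mahler Pool.Agent.NRG Pool.Agent.GAP

namespace Pool.Agent.Results.MP_6d22ea_nt.GappedClosed

/-- Mahler measure of an integer polynomial in `k` variables. -/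
noncomputable def measureOf {k : ℕ} (F : MvPolynomial (Fin k) ℤ) : ℝ :=
  Real.exp (∫ t in Set.Icc (0 : Fin k → ℝ) 1,
    Real.log ‖MvPolynomial.eval
      (fun j : Fin k => Complex.exp (2 * (Real.pi : ℂ) * Complex.I * ((t j : ℝ) : ℂ)))
      (MvPolynomial.map (Int.castRingHom ℂ) F)‖)

/-- `P` is reciprocal: `P(z) = u z^e P(1/z)` for some exponent `e` and some sign `u`. -/
def IsReciprocal {k : ℕ} (P : MvPolynomial (Fin k) ℤ) : Prop :=
  ∃ (e : Fin k →₀ ℕ) (u : ℤ), (u = 1 ∨ u = -1) ∧ (∀ s ∈ P.support, s ≤ e) ∧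
    ∀ s s' : Fin k →₀ ℕ, s + s' = e → P.coeff s = u * P.coeff s'

/-- The values of the integer linear functional `lam` on the exponents of `P`. -/
noncomputable def valuesOf {k : ℕ} (lam : Fin k → ℤ) (P : MvPolynomial (Fin k) ℤ) : Finset ℤ :=
  P.support.image fun s => ∑ i, lam i * (s i : ℤ)

/-- `P` is `m`-gapped: some integer linear functional has width `n ≥ 1` on the exponents of `P`, and
any two of its values differ by at most `√n / log n - 1` or by at least `n / m`. -/
def IsGapped {k : ℕ} (m : ℕ) (P : MvPolynomial (Fin k) ℤ) : Prop :=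
  ∃ (lam : Fin k → ℤ) (n : ℕ), 1 ≤ n ∧
    (∀ a ∈ valuesOf lam P, ∀ b ∈ valuesOf lam P, |a - b| ≤ n) ∧
    (∃ a ∈ valuesOf lam P, ∃ b ∈ valuesOf lam P, |a - b| = n) ∧
    ∀ a ∈ valuesOf lam P, ∀ b ∈ valuesOf lam P,
      (|(a : ℝ) - b| + 1) * Real.log n ≤ Real.sqrt n ∨ (n : ℝ) ≤ m * |(a : ℝ) - b|

/-- `P` is mild: not reciprocal, or some integer linear functional takes between `2` and `m` values
on its exponents, or `m`-gapped. -/
def IsMild {k : ℕ} (m : ℕ) (P : MvPolynomial (Fin k) ℤ) : Prop :=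
  ¬ IsReciprocal P ∨
    (∃ lam : Fin k → ℤ, 2 ≤ (valuesOf lam P).card ∧ (valuesOf lam P).card ≤ m) ∨ IsGapped m P

/-- The set of all Mahler measures. -/
def allValues : Set ℝ :=
  {x | ∃ k : ℕ, 1 ≤ k ∧ ∃ F : MvPolynomial (Fin k) ℤ, F ≠ 0 ∧ x = measureOf F}

/-- The measures of the polynomials whose nonconstant irreducible factors of measure not `1` are
mild. -/
def mildValues (m : ℕ) : Set ℝ :=
  {x | ∃ k : ℕ, 1 ≤ k ∧ ∃ F : MvPolynomial (Fin k) ℤ, F ≠ 0 ∧
    (∀ P : MvPolynomial (Fin k) ℤ, Irreducible P → P ∣ F → 0 < P.totalDegree → measureOf P ≠ 1 →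
      IsMild m P) ∧ x = measureOf F}

/-- The measures of the products of nonconstant irreducible polynomials which are not mild. -/
def hardValues (m : ℕ) : Set ℝ :=
  {x | ∃ k : ℕ, 1 ≤ k ∧ ∃ s : Multiset (MvPolynomial (Fin k) ℤ),
    (∀ P ∈ s, Irreducible P ∧ 0 < P.totalDegree ∧ ¬ IsMild m P) ∧ x = measureOf s.prod}

theorem measureOf_eq {k : ℕ} (F : MvPolynomial (Fin k) ℤ) : measureOf F = Real.exp (mm F) := by
  rw [measureOf]
  congr 1
  exact integral_cube_eq_mm F

theorem valuesOf_eq {k : ℕ} (lam : Fin k → ℤ) (P : MvPolynomial (Fin k) ℤ) :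
    valuesOf lam P = wts lam P := by
  rw [valuesOf, wts]
  congr 1
  funext s
  rw [Finsupp.weight_apply, Finsupp.sum_fintype _ _ (by simp)]
  refine Finset.sum_congr rfl fun i _ => ?_
  rw [nsmul_eq_mul, mul_comm]

theorem mild_iff {k : ℕ} {m : ℕ} {P : MvPolynomial (Fin k) ℤ} :
    Mild m P ↔ P.totalDegree = 0 ∨ IsMild m P := by
  rw [IsMild, Mild, Tame, IsGapped, Gapped]
  simp only [valuesOf_eq]
  constructor
  · rintro ((h | h | h) | h)
    · exact Or.inl h
    · exact Or.inr (Or.inl h)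
    · exact Or.inr (Or.inr (Or.inl h))
    · exact Or.inr (Or.inr (Or.inr h))
  · rintro (h | h | h | h)
    · exact Or.inl (Or.inl h)
    · exact Or.inl (Or.inr (Or.inl h))
    · exact Or.inl (Or.inr (Or.inr h))
    · exact Or.inr h

theorem rename_ne_zero {k : ℕ} {F : MvPolynomial (Fin k) ℤ} (hF : F ≠ 0) :
    MvPolynomial.rename Fin.castSucc F ≠ 0 := by
  rw [Ne, ← map_zero (MvPolynomial.rename (Fin.castSucc : Fin k → Fin (k + 1))),
    (MvPolynomial.rename_injective _ (Fin.castSucc_injective k)).eq_iff]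
  exact hF

theorem mem_all_iff {x : ℝ} : x ∈ allValues ↔ 0 < x ∧ Real.log x ∈ LLog := by
  constructor
  · rintro ⟨k, -, F, hF, rfl⟩
    refine ⟨by rw [measureOf_eq]; exact Real.exp_pos _, k, F, hF, ?_⟩
    rw [measureOf_eq, Real.log_exp]
  · rintro ⟨hx, k, F, hF, hm⟩
    refine ⟨k + 1, by omega, MvPolynomial.rename Fin.castSucc F, rename_ne_zero hF, ?_⟩
    rw [measureOf_eq, mm_rename _ (Fin.castSucc_injective k), hm, Real.exp_log hx]

theorem mem_hard_iff {m : ℕ} {x : ℝ} : x ∈ hardValues m ↔ 0 < x ∧ Real.log x ∈ HLog m := by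
  constructor
  · rintro ⟨k, -, s, hs, rfl⟩
    refine ⟨by rw [measureOf_eq]; exact Real.exp_pos _, k, s, fun P hP => ⟨(hs P hP).1, ?_⟩, ?_⟩
    · rw [mild_iff]
      rintro (h | h)
      · exact (hs P hP).2.1.ne' h
      · exact (hs P hP).2.2 h
    · rw [measureOf_eq, Real.log_exp]
  · rintro ⟨hx, k, s, hs, hm⟩
    have hs' : ∀ P ∈ s, Irreducible P ∧ 0 < P.totalDegree ∧ ¬ IsMild m P := fun P hP => by
      have h1 := (hs P hP).2
      rw [mild_iff, not_or] at h1
      exact ⟨(hs P hP).1, Nat.pos_of_ne_zero h1.1, h1.2⟩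
    rcases Nat.eq_zero_or_pos k with rfl | hk
    · have hs0 : s = 0 := by
        refine Multiset.eq_zero_of_forall_notMem fun P hP => ?_
        have h1 := (hs' P hP).2.1
        rw [MvPolynomial.eq_C_of_isEmpty P, MvPolynomial.totalDegree_C] at h1
        exact lt_irrefl _ h1
      refine ⟨1, le_rfl, 0, by simp, ?_⟩
      rw [hs0, Multiset.prod_zero] at hm
      have h1 : ∀ j : ℕ, mm (1 : MvPolynomial (Fin j) ℤ) = 0 := fun j => mm_unit isUnit_one
      rw [Multiset.prod_zero, measureOf_eq, h1, ← h1 0, hm, Real.exp_log hx]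
    · exact ⟨k, hk, s, hs', by rw [measureOf_eq, hm, Real.exp_log hx]⟩

/-- closed sets of logarithms give closed sets -/
theorem isClosed_of_log {V : Set ℝ} (hV : IsClosed V) (h0 : ∀ v ∈ V, 0 ≤ v) :
    IsClosed {x : ℝ | 0 < x ∧ Real.log x ∈ V} := by
  have hS : {x : ℝ | 0 < x ∧ Real.log x ∈ V} = Set.Ici 1 ∩ Real.log ⁻¹' V := by
    ext x
    constructor
    · rintro ⟨hx, hv⟩
      refine ⟨?_, hv⟩
      by_contra hcon
      have h1 : x < 1 := not_le.mp hcon
      have h2 := Real.log_neg hx h1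
      have h3 := h0 _ hv
      linarith
    · rintro ⟨hx, hv⟩
      exact ⟨lt_of_lt_of_le one_pos hx, hv⟩
  rw [hS]
  exact (Real.continuousOn_log.mono fun x (hx : (1 : ℝ) ≤ x) => by
    simp only [Set.mem_compl_iff, Set.mem_singleton_iff]
    intro h0
    rw [h0] at hx
    linarith).preimage_isClosed_of_isClosed isClosed_Ici hV

theorem isClosed_all_iff (m : ℕ) : IsClosed allValues ↔ closure (hardValues m) ⊆ allValues := by
  constructor
  · intro h
    refine closure_minimal (fun x hx => ?_) h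
    rw [mem_hard_iff] at hx
    rw [mem_all_iff]
    exact ⟨hx.1, HLog_subset_LLog _ hx.2⟩
  · intro h
    have h1 : closure (HLog m) ⊆ LLog := by
      intro y hy
      have h2 : Real.exp y ∈ closure (Real.exp '' HLog m) :=
        image_closure_subset_closure_image Real.continuous_exp ⟨y, hy, rfl⟩
      have h3 : Real.exp '' HLog m ⊆ hardValues m := by
        rintro x ⟨v, hv, rfl⟩
        rw [mem_hard_iff]
        exact ⟨Real.exp_pos _, by rw [Real.log_exp]; exact hv⟩
      have h4 := h (closure_mono h3 h2)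
      rw [mem_all_iff, Real.log_exp] at h4
      exact h4.2
    have h2 : allValues = {x : ℝ | 0 < x ∧ Real.log x ∈ LLog} := by
      ext x
      exact mem_all_iff
    rw [h2]
    exact isClosed_of_log (isClosed_LLog_of_hard h1) fun v hv => LLog_nonneg hv

/-- the closure below a bound lies in one of the closed sets of the library -/
theorem closure_mild (m : ℕ) (X : ℝ) : ∃ c : ℝ, ∀ x ∈ closure (mildValues m), x ≤ X →
    0 < x ∧ Real.log x ∈ PP c := by
  obtain ⟨c, hc⟩ := mem_PP_of_mild m (Real.log (max X 1 + 1))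
  refine ⟨c, fun x hx hxX => ?_⟩
  have hcl : IsClosed {x : ℝ | 0 < x ∧ Real.log x ∈ PP c} :=
    isClosed_of_log (isClosed_PP c) fun v hv => PP_nonneg hv
  have h1 : x ∈ closure (Set.Iio (max X 1 + 1) ∩ mildValues m) :=
    isOpen_Iio.inter_closure ⟨by
      rw [Set.mem_Iio]
      have := le_max_left X 1
      linarith, hx⟩
  refine hcl.closure_subset_iff.mpr ?_ h1
  rintro y ⟨hyX, k, -, F, hF, hT, rfl⟩
  rw [Set.mem_Iio] at hyX
  have h2 : mm F ≤ Real.log (max X 1 + 1) := by
    rw [measureOf_eq] at hyX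
    rw [← Real.log_exp (mm F)]
    exact Real.log_le_log (Real.exp_pos _) hyX.le
  refine ⟨by rw [measureOf_eq]; exact Real.exp_pos _, ?_⟩
  rw [measureOf_eq, Real.log_exp]
  refine hc k F hF h2 fun P hP hPF h0 => ?_
  rw [mild_iff]
  rcases Nat.eq_zero_or_pos P.totalDegree with h | h
  · exact Or.inl h
  · refine Or.inr (hT P hP hPF h ?_)
    rw [measureOf_eq]
    intro h3
    exact h0 (Real.exp_eq_one_iff _ |>.mp h3)

theorem result :
    ∀ m : ℕ, closure (mildValues m) ⊆ allValues ∧
      (∃ c : ℝ, 1 < c ∧ ∀ x ∈ closure (mildValues m), x = 1 ∨ c ≤ x) ∧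
      (∀ X : ℝ, ∃ K : ℕ, ∀ x ∈ closure (mildValues m), x ≤ X →
        ∃ G : MvPolynomial (Fin K) ℤ, G ≠ 0 ∧ x = measureOf G) ∧
      (IsClosed allValues ↔ closure (hardValues m) ⊆ allValues) := by
  intro m
  refine ⟨?_, ?_, ?_, isClosed_all_iff m⟩
  · intro x hx
    obtain ⟨c, hc⟩ := closure_mild m x
    rw [mem_all_iff]
    exact ⟨(hc x hx le_rfl).1, PP_subset_LLog _ (hc x hx le_rfl).2⟩
  · obtain ⟨c, hc⟩ := closure_mild m 2
    obtain ⟨ε, hε, hgap⟩ := gap_PP c
    refine ⟨min 2 (Real.exp ε), lt_min one_lt_two (Real.one_lt_exp_iff.mpr hε), fun x hx => ?_⟩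
    rcases le_or_gt x 2 with h2 | h2
    · obtain ⟨h3, h4⟩ := hc x hx h2
      rcases hgap _ h4 with h | h
      · left
        rw [← Real.exp_log h3, h, Real.exp_zero]
      · right
        refine (min_le_right _ _).trans ?_
        rw [← Real.exp_log h3]
        exact Real.exp_le_exp.mpr h
    · right
      exact (min_le_left _ _).trans h2.le
  · intro X
    obtain ⟨c, hc⟩ := closure_mild m X
    obtain ⟨K, hK⟩ := vars_PP c (Real.log X)
    refine ⟨K, fun x hx hxX => ?_⟩
    obtain ⟨h3, h4⟩ := hc x hx hxX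
    obtain ⟨G, hG, hGx⟩ := hK _ h4 (Real.log_le_log h3 hxX)
    exact ⟨G, hG, by rw [measureOf_eq, hGx, Real.exp_log h3]⟩

end Pool.Agent.Results.MP_6d22ea_nt.GappedClosed
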