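import Mathlib
import Pool.Agent.HMB.C02
import Pool.Agent.NRG.G11Red

/-!
# Mahler measures of Hermitian matrices

For a matrix `A(z)` which is Hermitian for `z` on the torus `|z_1| = ... = |z_k| = 1` and whose principal
submatrices have characteristic polynomials with integer Laurent polynomial coefficients, consider the
Mahler measure of `det (w + 1/w - A(z))`. The closure of the set of all these measures consists of
Mahler measures of integer polynomials, and `1` is isolated in it; below every bound `X` such a matrix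
becomes cyclotomic (all eigenvalues in `[-2, 2]` for all `z`) after deleting boundedly many indices.
-/

open MeasureTheory Filter Topology Pool.Agent.H27Mahler Pool.Agent.NRG

namespace Pool.Agent.Results.MP_6d22ea_nt.HermitianClosed

/-- Mahler measure of an integer polynomial in `k` variables. -/
noncomputable def measureOf {k : ℕ} (F : MvPolynomial (Fin k) ℤ) : ℝ :=
  Real.exp (∫ t in Set.Icc (0 : Fin k → ℝ) 1,
    Real.log ‖MvPolynomial.eval
      (fun j : Fin k => Complex.exp (2 * (Real.pi : ℂ) * Complex.I * ((t j : ℝ) : ℂ)))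
      (MvPolynomial.map (Int.castRingHom ℂ) F)‖)

/-- The set of all Mahler measures. -/
def allValues : Set ℝ :=
  {x | ∃ k : ℕ, 1 ≤ k ∧ ∃ F : MvPolynomial (Fin k) ℤ, F ≠ 0 ∧ x = measureOf F}

/-- The function `f` on the torus is an integer Laurent polynomial: `f(z) z^e = P(z)`. -/
def IsLaurent {k : ℕ} (f : (Fin k → Circle) → ℂ) : Prop :=
  ∃ (e : Fin k → ℕ) (P : MvPolynomial (Fin k) ℤ), ∀ z : Fin k → Circle,
    f z * ∏ j, (z j : ℂ) ^ e j = MvPolynomial.aeval (fun j => (z j : ℂ)) P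

/-- The principal submatrix with rows and columns in `W`. -/
def principal {n : ℕ} (B : Matrix (Fin n) (Fin n) ℂ) (W : Finset (Fin n)) :
    Matrix {x // x ∈ W} {x // x ∈ W} ℂ :=
  B.submatrix (Subtype.val : {x // x ∈ W} → Fin n) (Subtype.val : {x // x ∈ W} → Fin n)

/-- `A(z)` is Hermitian for every `z` in the torus, and the coefficients of the characteristic
polynomials of all its principal submatrices are integer Laurent polynomials. -/
def IsIntegral {k n : ℕ} (A : (Fin k → Circle) → Matrix (Fin n) (Fin n) ℂ) : Prop :=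
  (∀ z, (A z).IsHermitian) ∧ ∀ (W : Finset (Fin n)) (j : ℕ),
    IsLaurent fun z => (principal (A z) W).charpoly.coeff j

/-- The Mahler measure of `det (w + 1/w - A(z))`. -/
noncomputable def matMeasure {k n : ℕ} (A : (Fin k → Circle) → Matrix (Fin n) (Fin n) ℂ) : ℝ :=
  Real.exp (∫ t in Set.Icc (0 : Fin (k + 1) → ℝ) 1,
    Real.log ‖(((2 * Real.cos (2 * Real.pi * t 0) : ℝ) : ℂ) • (1 : Matrix (Fin n) (Fin n) ℂ) -
      A (fun j => Circle.exp (2 * Real.pi * t j.succ))).det‖)

/-- The measures of all integral Hermitian matrix functions. -/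
def hermitianValues : Set ℝ :=
  {x | ∃ (k n : ℕ) (A : (Fin k → Circle) → Matrix (Fin n) (Fin n) ℂ), IsIntegral A ∧
    x = matMeasure A}

theorem measureOf_eq {k : ℕ} (F : MvPolynomial (Fin k) ℤ) : measureOf F = Real.exp (mm F) := by
  rw [measureOf]
  congr 1
  exact integral_cube_eq_mm F

theorem rename_ne_zero {k : ℕ} {F : MvPolynomial (Fin k) ℤ} (hF : F ≠ 0) :
    MvPolynomial.rename Fin.castSucc F ≠ 0 := by
  rw [Ne, ← map_zero (MvPolynomial.rename (Fin.castSucc : Fin k → Fin (k + 1))),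
    (MvPolynomial.rename_injective _ (Fin.castSucc_injective k)).eq_iff]
  exact hF

theorem mem_all_iff {x : ℝ} : x ∈ allValues ↔ 0 < x ∧ Real.log x ∈ LLog := by
  constructor
  · rintro ⟨k, -, F, hF, rfl⟩
    refine ⟨by rw [measureOf_eq]; exact Real.exp_pos _, k, F, hF, ?_⟩
    rw [measureOf_eq, Real.log_exp]
  · rintro ⟨hx, k, F, hF, hm⟩
    refine ⟨k + 1, by omega, MvPolynomial.rename Fin.castSucc F, rename_ne_zero hF, ?_⟩
    rw [measureOf_eq, mm_rename _ (Fin.castSucc_injective k), hm, Real.exp_log hx]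

theorem matMeasure_eq {k n : ℕ} {A : (Fin k → Circle) → Matrix (Fin n) (Fin n) ℂ}
    (hA : IsIntegral A) : matMeasure A = Real.exp (HMB.mA (A := A) hA) := by
  rw [matMeasure]
  congr 1
  exact HMB.integral_eq_mA (A := A) hA

/-- bounded subsets whose logarithms lie in one of the closed sets -/
theorem closure_of_bounded {V : Set ℝ} (h1 : ∀ x ∈ V, 1 ≤ x)
    (h : ∀ X : ℝ, ∃ c : ℝ, ∀ x ∈ V, x ≤ X → Real.log x ∈ PP c) :
    ∀ X : ℝ, ∃ c : ℝ, ∀ y ∈ closure V, y ≤ X → 0 < y ∧ Real.log y ∈ PP c := by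
  intro X
  obtain ⟨c, hc⟩ := h (X + 1)
  refine ⟨c, fun y hy hyX => ?_⟩
  have hy1 : 1 ≤ y := by
    have h2 : V ⊆ Set.Ici 1 := fun x hx => h1 x hx
    exact (isClosed_Ici.closure_subset_iff.mpr h2) hy
  have hy0 : 0 < y := by linarith
  refine ⟨hy0, ?_⟩
  obtain ⟨u, hu, hlim⟩ := mem_closure_iff_seq_limit.mp hy
  have hev : ∀ᶠ m in atTop, Real.log (u m) ∈ PP c := by
    filter_upwards [hlim.eventually (gt_mem_nhds (show y < X + 1 by linarith))] with m hm
    exact hc _ (hu m) hm.le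
  have hlog : Tendsto (fun m => Real.log (u m)) atTop (𝓝 (Real.log y)) :=
    (Real.continuousAt_log hy0.ne').tendsto.comp hlim
  exact (isClosed_PP c).mem_of_tendsto hlog hev

theorem SS_subset_PP {c v : ℝ} (h : v ∈ SS c) : v ∈ PP c := by
  obtain ⟨k, F, hF, rfl⟩ := h
  exact ⟨k, {F}, fun P hP => by rw [Multiset.mem_singleton.mp hP]; exact hF,
    by rw [Multiset.prod_singleton]⟩

theorem hermitian_one_le {x : ℝ} (hx : x ∈ hermitianValues) : 1 ≤ x := by
  obtain ⟨k, n, A, hA, rfl⟩ := hx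
  rw [matMeasure_eq hA]
  exact Real.one_le_exp (mm_nonneg _)

theorem result :
    (∀ (k n : ℕ) (A : (Fin k → Circle) → Matrix (Fin n) (Fin n) ℂ), (∀ z, (A z).IsHermitian) →
      (∀ i j, IsLaurent fun z => A z i j) → IsIntegral A) ∧
    closure hermitianValues ⊆ allValues ∧
    (∃ c : ℝ, 1 < c ∧ ∀ x ∈ hermitianValues, x = 1 ∨ c ≤ x) ∧
    ∀ X : ℝ, ∃ K : ℕ,
      (∀ (k n : ℕ) (A : (Fin k → Circle) → Matrix (Fin n) (Fin n) ℂ), IsIntegral A →
        matMeasure A ≤ X → ∃ U : Finset (Fin n), U.card ≤ K ∧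
          ∀ z, ∀ x ∈ spectrum ℝ (principal (A z) Uᶜ), |x| ≤ 2) ∧
      ∀ x ∈ closure hermitianValues, x ≤ X →
        ∃ G : MvPolynomial (Fin K) ℤ, G ≠ 0 ∧ x = measureOf G := by
  obtain ⟨γ, hγ, hmain⟩ := HMB.family_main
  -- bounded Hermitian values lie in one closed set
  have hmem : ∀ X : ℝ, ∃ c : ℝ, ∀ x ∈ hermitianValues, x ≤ X → Real.log x ∈ PP c := by
    intro X
    obtain ⟨R, c, h⟩ := hmain (Real.log X)
    refine ⟨c, ?_⟩
    rintro x ⟨k, n, A, hA, rfl⟩ hX
    rw [matMeasure_eq hA] at hX ⊢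
    rw [Real.log_exp]
    have hX' : HMB.mA (A := A) hA ≤ Real.log X := by
      rw [← Real.log_exp (HMB.mA (A := A) hA)]
      exact Real.log_le_log (Real.exp_pos _) hX
    exact SS_subset_PP (h (k + 1) (Fin n) (HMB.toFam (A := A) hA) hX').1
  have hcl := closure_of_bounded (fun x hx => hermitian_one_le hx) hmem
  refine ⟨?_, ?_, ?_, ?_⟩
  · intro k n A hA hL
    exact HMB.isIntegral_of_entries hA hL
  · intro y hy
    obtain ⟨c, hc⟩ := hcl y
    obtain ⟨h1, h2⟩ := hc y hy le_rfl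
    exact mem_all_iff.mpr ⟨h1, PP_subset_LLog c h2⟩
  · refine ⟨Real.exp γ, Real.one_lt_exp_iff.mpr hγ, ?_⟩
    rintro x ⟨k, n, A, hA, rfl⟩
    rw [matMeasure_eq hA]
    obtain ⟨R, c, h⟩ := hmain (HMB.mA (A := A) hA)
    rcases (h (k + 1) (Fin n) (HMB.toFam (A := A) hA) le_rfl).2.1 with h1 | h1
    · left
      change HMB.mA (A := A) hA = 0 at h1
      rw [h1, Real.exp_zero]
    · right
      exact Real.exp_le_exp.mpr h1
  · intro X
    obtain ⟨R, c, h⟩ := hmain (Real.log X)
    obtain ⟨c', hc'⟩ := hcl X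
    obtain ⟨K, hK⟩ := vars_PP c' (Real.log X)
    refine ⟨max R K, ?_, ?_⟩
    · intro k n A hA hX
      rw [matMeasure_eq hA] at hX
      have hX' : HMB.mA (A := A) hA ≤ Real.log X := by
        rw [← Real.log_exp (HMB.mA (A := A) hA)]
        exact Real.log_le_log (Real.exp_pos _) hX
      obtain ⟨U, hU1, hU2⟩ := (h (k + 1) (Fin n) (HMB.toFam (A := A) hA) hX').2.2
      exact ⟨U, hU1.trans (le_max_left _ _), fun z =>
        HMB.spectrum_of_mm_zero (A := A) hA Uᶜ hU2 z⟩
    · intro x hx hxX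
      obtain ⟨h1, h2⟩ := hc' x hx hxX
      obtain ⟨G, hG, hGx⟩ := hK _ h2 (Real.log_le_log h1 hxX)
      refine ⟨MvPolynomial.rename (Fin.castLE (le_max_right R K)) G, ?_, ?_⟩
      · rw [Ne, ← map_zero (MvPolynomial.rename (Fin.castLE (le_max_right R K))),
          (MvPolynomial.rename_injective _ (Fin.castLE_injective _)).eq_iff]
        exact hG
      · rw [measureOf_eq, mm_rename _ (Fin.castLE_injective _), hGx, Real.exp_log h1]

end Pool.Agent.Results.MP_6d22ea_nt.HermitianClosed
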