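import Mathlib
import Pool.Agent.NRC.C11Red

/-!
# Closedness of the set of Mahler measures of all nonreciprocal polynomials

The set of the Mahler measures of the nonzero integer polynomials, in any number of variables, none
of whose nonconstant irreducible factors of measure greater than one is reciprocal, is closed.
Consequently the set of all Mahler measures of integer polynomials is closed if and only if it
contains the closure of the set of the measures of reciprocal polynomials.
-/

open MeasureTheory Filter Topology Pool.Agent.H27Mahler Pool.Agent.NRC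

namespace Pool.Agent.Results.MP_6d22ea_nt.NonreciprocalClosed

/-- Mahler measure of an integer polynomial in `k` variables. -/
noncomputable def measureOf {k : ℕ} (F : MvPolynomial (Fin k) ℤ) : ℝ :=
  Real.exp (∫ t in Set.Icc (0 : Fin k → ℝ) 1,
    Real.log ‖MvPolynomial.eval
      (fun j : Fin k => Complex.exp (2 * (Real.pi : ℂ) * Complex.I * ((t j : ℝ) : ℂ)))
      (MvPolynomial.map (Int.castRingHom ℂ) F)‖)

/-- `P` is reciprocal: `P(z) = u z^e P(1/z)` for some exponent `e` and some sign `u`. -/
def IsReciprocal {k : ℕ} (P : MvPolynomial (Fin k) ℤ) : Prop :=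
  ∃ (e : Fin k →₀ ℕ) (u : ℤ), (u = 1 ∨ u = -1) ∧ (∀ s ∈ P.support, s ≤ e) ∧
    ∀ s s' : Fin k →₀ ℕ, s + s' = e → P.coeff s = u * P.coeff s'

/-- The measures of the polynomials without reciprocal nonconstant irreducible factors of measure
different from one. -/
def nonreciprocalValues : Set ℝ :=
  {x | ∃ (k : ℕ) (F : MvPolynomial (Fin k) ℤ), F ≠ 0 ∧
    (∀ P : MvPolynomial (Fin k) ℤ, Irreducible P → P ∣ F → P.totalDegree ≠ 0 →
      measureOf P ≠ 1 → ¬ IsReciprocal P) ∧ x = measureOf F}

/-- The measures of the reciprocal polynomials. -/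
def reciprocalValues : Set ℝ :=
  {x | ∃ (k : ℕ) (F : MvPolynomial (Fin k) ℤ), F ≠ 0 ∧ IsReciprocal F ∧ x = measureOf F}

/-- The measures of all nonzero integer polynomials. -/
def allValues : Set ℝ :=
  {x | ∃ (k : ℕ) (F : MvPolynomial (Fin k) ℤ), F ≠ 0 ∧ x = measureOf F}

theorem measureOf_eq {k : ℕ} (F : MvPolynomial (Fin k) ℤ) : measureOf F = Real.exp (mm F) := by
  rw [measureOf]
  congr 1
  exact integral_cube_eq_mm F

theorem nr_iff {k : ℕ} (F : MvPolynomial (Fin k) ℤ) :
    (∀ P : MvPolynomial (Fin k) ℤ, Irreducible P → P ∣ F → P.totalDegree ≠ 0 →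
      measureOf P ≠ 1 → ¬ IsReciprocal P) ↔ Nr F := by
  have h : ∀ P : MvPolynomial (Fin k) ℤ, measureOf P ≠ 1 ↔ mm P ≠ 0 := fun P => by
    rw [measureOf_eq, Ne, Real.exp_eq_one_iff]
  constructor
  · intro hF P hP hPF hd hm hr
    exact hF P hP hPF hd ((h P).mpr hm) hr
  · intro hF P hP hPF hd hm hr
    exact hF P hP hPF hd ((h P).mp hm) hr

theorem log_tendsto {k : ℕ → ℕ} {F : ∀ n, MvPolynomial (Fin (k n)) ℤ} {x : ℝ}
    (h : Tendsto (fun n => measureOf (F n)) atTop (𝓝 x)) :
    0 < x ∧ Tendsto (fun n => mm (F n)) atTop (𝓝 (Real.log x)) := by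
  have h1 : (1 : ℝ) ≤ x := by
    refine ge_of_tendsto h (Filter.Eventually.of_forall fun n => ?_)
    rw [measureOf_eq]
    exact Real.one_le_exp (mm_nonneg _)
  have h0 : 0 < x := lt_of_lt_of_le one_pos h1
  refine ⟨h0, ?_⟩
  have h2 := ((Real.continuousAt_log h0.ne').tendsto).comp h
  refine h2.congr fun n => ?_
  simp only [Function.comp, measureOf_eq, Real.log_exp]

theorem isClosed_nonreciprocalValues : IsClosed nonreciprocalValues := by
  refine IsSeqClosed.isClosed ?_
  intro y x hy hx
  choose k F hF hN hyF using hy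
  have hyF' : (fun n => measureOf (F n)) = y := by
    funext n
    exact (hyF n).symm
  rw [← hyF'] at hx
  obtain ⟨h0, hlog⟩ := log_tendsto hx
  obtain ⟨K, G, hG, hNG, hm⟩ := closed_mm F hF (fun n => (nr_iff _).mp (hN n)) hlog
  exact ⟨K, G, hG, (nr_iff _).mpr hNG, by rw [measureOf_eq, hm, Real.exp_log h0]⟩

theorem closed_iff : IsClosed allValues ↔ closure reciprocalValues ⊆ allValues := by
  constructor
  · intro h
    refine closure_minimal ?_ h
    rintro x ⟨k, F, hF, -, hx⟩
    exact ⟨k, F, hF, hx⟩
  · intro h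
    refine IsSeqClosed.isClosed ?_
    intro y x hy hx
    choose k F hF hyF using hy
    have hyF' : (fun n => measureOf (F n)) = y := by
      funext n
      exact (hyF n).symm
    rw [← hyF'] at hx
    obtain ⟨h0, hlog⟩ := log_tendsto hx
    obtain ⟨K, G, z, hG, -, hxz, k', H, hH, hR, hHz⟩ := limit_split F hF hlog
    have hz : Real.exp z ∈ closure reciprocalValues := by
      refine mem_closure_of_tendsto (Real.continuous_exp.continuousAt.tendsto.comp hHz)
        (Filter.Eventually.of_forall fun n => ?_)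
      exact ⟨k' n, H n, hH n, hR n, by rw [measureOf_eq]; rfl⟩
    obtain ⟨k'', H', hH', hzH⟩ := h hz
    obtain ⟨P, hP, hPm⟩ := exists_prod hG hH'
    refine ⟨_, P, hP, ?_⟩
    rw [measureOf_eq] at hzH
    have hz' : z = mm H' := Real.exp_injective hzH
    rw [measureOf_eq, hPm, ← hz', ← hxz, Real.exp_log h0]

theorem result :
    IsClosed nonreciprocalValues ∧
    (IsClosed allValues ↔ closure reciprocalValues ⊆ allValues) :=
  ⟨isClosed_nonreciprocalValues, closed_iff⟩

end Pool.Agent.Results.MP_6d22ea_nt.NonreciprocalClosed
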